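import Pool.Agent.Q321.Kk.Tree

set_option autoImplicit false

/-!
# Dimension of a set with many big fibres
-/

open MeasureTheory Set Filter Topology
open scoped ENNReal NNReal

namespace Pool.Agent.Q321.Kk

variable {d k : ℕ}

/-- radii -/
theorem exists_radius {s : ℝ} (hs : 0 < s) {D : ℝ≥0∞} {r : ℝ} (hr : 0 < r)
    (hD : D ≤ ENNReal.ofReal (r / 2)) {ε : ℝ≥0∞} (hε : ε ≠ 0) :
    ∃ δ : ℝ, 0 < δ ∧ δ ≤ r ∧ D ≤ ENNReal.ofReal δ ∧ ENNReal.ofReal δ ^ s ≤ D ^ s + ε := by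
  have hDt : D ≠ ⊤ := ne_top_of_le_ne_top ENNReal.ofReal_ne_top hD
  have hcont : Tendsto (fun x : ℝ => ENNReal.ofReal x ^ s) (𝓝[>] D.toReal) (𝓝 (ENNReal.ofReal D.toReal ^ s)) :=
    ((ENNReal.continuous_rpow_const.comp ENNReal.continuous_ofReal).tendsto _).mono_left nhdsWithin_le_nhds
  rw [ENNReal.ofReal_toReal hDt] at hcont
  have h1 : D ^ s < D ^ s + ε :=
    ENNReal.lt_add_right (ENNReal.rpow_ne_top_of_nonneg hs.le hDt) hε
  have h2 := hcont.eventually (Iio_mem_nhds h1)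
  have hDr : D.toReal < r := by
    have := ENNReal.toReal_le_of_le_ofReal (by positivity) hD
    linarith
  have h3 : ∀ᶠ x in 𝓝[>] D.toReal, x ∈ Ioo D.toReal r := Ioo_mem_nhdsGT hDr
  obtain ⟨δ, h4, h5⟩ := (h2.and h3).exists
  refine ⟨δ, ENNReal.toReal_nonneg.trans_lt h5.1, h5.2.le, ?_, h4.le⟩
  rw [← ENNReal.ofReal_toReal hDt]
  exact ENNReal.ofReal_le_ofReal h5.1.le

/-- levels -/
theorem exists_level {δ : ℝ} (h0 : 0 < δ) (h1 : δ ≤ 1) :
    ∃ n : ℕ, δ ≤ (1 / 2 : ℝ) ^ n ∧ (1 / 2 : ℝ) ^ n ≤ 2 * δ := by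
  obtain ⟨n, h2, h3⟩ := exists_nat_pow_near_of_lt_one h0 h1 (y := (1 / 2 : ℝ)) (by norm_num) (by norm_num)
  refine ⟨n, h3, ?_⟩
  rw [pow_succ] at h2
  linarith

theorem norm_le_sum' (x : EuclideanSpace ℝ (Fin d)) : ‖x‖ ≤ ∑ i, |x i| := by
  rw [EuclideanSpace.norm_eq]
  apply Real.sqrt_le_iff.2
  refine ⟨Finset.sum_nonneg fun _ _ => abs_nonneg _, ?_⟩
  simp only [Real.norm_eq_abs]
  exact Finset.sum_sq_le_sq_sum_of_nonneg fun _ _ => abs_nonneg _

theorem coord_le' (x : EuclideanSpace ℝ (Fin d)) (i : Fin d) : |x i| ≤ ‖x‖ := by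
  rw [← Real.norm_eq_abs]
  exact PiLp.norm_apply_le x i

theorem diam_cube (n : ℕ) (q : Fin d → ℤ) :
    Metric.ediam (cube n q) ≤ ENNReal.ofReal (d * (1 / 2 : ℝ) ^ n) := by
  refine Metric.ediam_le fun x hx y hy => ?_
  rw [edist_dist]
  refine ENNReal.ofReal_le_ofReal ?_
  rw [dist_eq_norm]
  refine (norm_le_sum' _).trans ?_
  calc ∑ i, |(x - y) i| ≤ ∑ _i : Fin d, (1 / 2 : ℝ) ^ n := by
        refine Finset.sum_le_sum fun i _ => ?_
        have h1 : fl n x i = fl n y i := by rw [hx, hy]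
        have h2 : |(2 : ℝ) ^ n * x i - 2 ^ n * y i| < 1 := Int.abs_sub_lt_one_of_floor_eq_floor h1
        rw [← mul_sub, abs_mul, abs_of_pos (by positivity : (0 : ℝ) < 2 ^ n)] at h2
        rw [PiLp.sub_apply]
        have h3 : (1 / 2 : ℝ) ^ n * 2 ^ n = 1 := by rw [← mul_pow]; norm_num
        have h4 : 0 < (1 / 2 : ℝ) ^ n := by positivity
        calc |x i - y i| = (1 / 2 : ℝ) ^ n * (2 ^ n * |x i - y i|) := by rw [← mul_assoc, h3, one_mul]
          _ ≤ (1 / 2 : ℝ) ^ n * 1 := mul_le_mul_of_nonneg_left h2.le h4.le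
          _ = _ := mul_one _
    _ = _ := by simp

/-- close points lie in neighbouring cubes -/
theorem fl_near {n : ℕ} {x y : EuclideanSpace ℝ (Fin d)} (h : dist x y ≤ (1 / 2 : ℝ) ^ n) :
    fl n x ∈ Finset.Icc (fl n y - 1) (fl n y + 1) := by
  rw [Finset.mem_Icc]
  have key : ∀ i, |(2 : ℝ) ^ n * x i - 2 ^ n * y i| ≤ 1 := by
    intro i
    rw [← mul_sub, abs_mul, abs_of_pos (by positivity : (0 : ℝ) < 2 ^ n)]
    have h1 : |(x - y) i| ≤ (1 / 2 : ℝ) ^ n := (coord_le' _ i).trans (by rwa [← dist_eq_norm])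
    rw [PiLp.sub_apply] at h1
    have h3 : (2 : ℝ) ^ n * (1 / 2 : ℝ) ^ n = 1 := by rw [← mul_pow]; norm_num
    calc (2 : ℝ) ^ n * |x i - y i| ≤ 2 ^ n * (1 / 2 : ℝ) ^ n := mul_le_mul_of_nonneg_left h1 (by positivity)
      _ = 1 := h3
  constructor
  · intro i
    have h1 := (abs_le.1 (key i)).1
    simp only [Pi.sub_apply, Pi.one_apply, fl]
    rw [Int.le_floor]
    push_cast
    have := Int.floor_le ((2 : ℝ) ^ n * y i)
    linarith
  · intro i
    have h1 := (abs_le.1 (key i)).2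
    simp only [Pi.add_apply, Pi.one_apply, fl]
    have h2 := Int.lt_floor_add_one ((2 : ℝ) ^ n * y i)
    have h3 : ⌊(2 : ℝ) ^ n * x i⌋ < ⌊(2 : ℝ) ^ n * y i⌋ + 1 + 1 := by
      rw [Int.floor_lt]
      push_cast
      linarith
    omega

theorem card_box (q : Fin d → ℤ) : (Finset.Icc (q - 1) (q + 1)).card = 3 ^ d := by
  rw [Pi.card_Icc]
  have : ∀ i, (Finset.Icc ((q - 1) i) ((q + 1) i)).card = 3 := by
    intro i
    rw [Int.card_Icc]
    simp only [Pi.sub_apply, Pi.add_apply, Pi.one_apply]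
    have : q i + 1 + 1 - (q i - 1) = 3 := by ring
    rw [this]; rfl
  rw [Finset.prod_congr rfl fun i _ => this i]
  simp

/-- the fibre -/
def fibre (K : Set ((Fin k → ℝ) × EuclideanSpace ℝ (Fin d))) (z : EuclideanSpace ℝ (Fin d)) :
    Set (Fin k → ℝ) := {x | (x, z) ∈ K}

/-- One scale. -/
theorem one_scale {s' : ℝ} (hs' : 0 < s') {K : Set ((Fin k → ℝ) × EuclideanSpace ℝ (Fin d))}
    (hK : (μH[(k : ℝ) + s'] : Measure ((Fin k → ℝ) × EuclideanSpace ℝ (Fin d))) K = 0)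
    {η : ℝ≥0∞} (hη : η ≠ 0) (hηt : η ≠ ⊤) (N : ℕ) :
    ∃ S : Set (ℕ × (Fin d → ℤ)), (∀ i ∈ S, N ≤ i.1) ∧
      ({z | η ≤ volume (fibre K z)} ⊆ ⋃ i ∈ S, cube i.1 i.2) ∧
      ∑' i : ℕ × (Fin d → ℤ), S.indicator (fun i => ENNReal.ofReal (d * (1 / 2 : ℝ) ^ i.1) ^ s') i ≤
        η⁻¹ * ((3 : ℝ≥0∞) ^ d * (ENNReal.ofReal d ^ s' * (2 ^ ((k : ℝ) + s') * 3))) := by
  classical
  set s : ℝ := k + s' with hs
  have hs0 : 0 < s := by positivity
  -- mesh
  set r : ℝ := (1 / 2 : ℝ) ^ (N + 1) with hr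
  have hr0 : 0 < r := by positivity
  have hr1 : r ≤ 1 := pow_le_one₀ (by norm_num) (by norm_num)
  rw [Measure.hausdorffMeasure_apply] at hK
  have hK1 := (iSup₂_le_iff.1 hK.le) (ENNReal.ofReal (r / 2)) (by simp; positivity)
  have hK2 : (⨅ (t : ℕ → Set ((Fin k → ℝ) × EuclideanSpace ℝ (Fin d))) (_ : K ⊆ ⋃ n, t n)
      (_ : ∀ n, Metric.ediam (t n) ≤ ENNReal.ofReal (r / 2)), ∑' n, ⨆ _ : (t n).Nonempty,
      Metric.ediam (t n) ^ s) < 1 := lt_of_le_of_lt hK1 one_pos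
  simp only [iInf_lt_iff] at hK2
  obtain ⟨t, ht1, ht2, ht3⟩ := hK2
  obtain ⟨ε, hε0, hε1⟩ := ENNReal.exists_pos_sum_of_countable' (one_ne_zero : (1 : ℝ≥0∞) ≠ 0) ℕ
  choose δ hδ0 hδr hδD hδs using fun n => exists_radius hs0 hr0 (ht2 n) (hε0 n).ne'
  choose lv hlv1 hlv2 using fun n => exists_level (hδ0 n) ((hδr n).trans hr1)
  have hsup : ∀ n, (⨆ _ : (t n).Nonempty, Metric.ediam (t n) ^ s) = Metric.ediam (t n) ^ s := by
    intro n
    rcases (t n).eq_empty_or_nonempty with h | h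
    · rw [h]; simp [ENNReal.zero_rpow_of_pos hs0]
    · simp [h]
  simp_rw [hsup] at ht3
  have hsum : ∑' n, ENNReal.ofReal ((1 / 2 : ℝ) ^ lv n) ^ s ≤ 2 ^ s * 3 := by
    calc ∑' n, ENNReal.ofReal ((1 / 2 : ℝ) ^ lv n) ^ s
        ≤ ∑' n, 2 ^ s * (Metric.ediam (t n) ^ s + ε n) := by
          refine ENNReal.tsum_le_tsum fun n => ?_
          calc ENNReal.ofReal ((1 / 2 : ℝ) ^ lv n) ^ s ≤ ENNReal.ofReal (2 * δ n) ^ s :=
                ENNReal.rpow_le_rpow (ENNReal.ofReal_le_ofReal (hlv2 n)) hs0.le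
            _ = 2 ^ s * ENNReal.ofReal (δ n) ^ s := by
                rw [ENNReal.ofReal_mul (by norm_num), ENNReal.mul_rpow_of_nonneg _ _ hs0.le]
                norm_num
            _ ≤ _ := by gcongr; exact hδs n
      _ = 2 ^ s * (∑' n, Metric.ediam (t n) ^ s + ∑' n, ε n) := by
          rw [ENNReal.tsum_mul_left, ENNReal.tsum_add]
      _ ≤ 2 ^ s * (1 + 1) := by gcongr
      _ ≤ 2 ^ s * 3 := by gcongr; norm_num
  -- base points
  have hpt : ∀ n, ∃ c : EuclideanSpace ℝ (Fin d), ∀ x z, (x, z) ∈ t n → dist z c ≤ (1 / 2 : ℝ) ^ lv n := by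
    intro n
    rcases (t n).eq_empty_or_nonempty with h | ⟨⟨x0, c⟩, h⟩
    · exact ⟨0, fun x z hx => by rw [h] at hx; exact absurd hx (notMem_empty _)⟩
    · refine ⟨c, fun x z hx => ?_⟩
      have h1 : edist (x, z) (x0, c) ≤ ENNReal.ofReal ((1 / 2 : ℝ) ^ lv n) :=
        (Metric.edist_le_ediam_of_mem hx h).trans ((hδD n).trans (ENNReal.ofReal_le_ofReal (hlv1 n)))
      have h2 : edist z c ≤ ENNReal.ofReal ((1 / 2 : ℝ) ^ lv n) := by
        rw [Prod.edist_eq] at h1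
        exact (le_max_right _ _).trans h1
      rw [edist_dist] at h2
      exact (ENNReal.ofReal_le_ofReal_iff (by positivity)).1 h2
  choose c hc using hpt
  -- the weights
  let F : ℕ → ℕ → (Fin d → ℤ) → ℝ≥0∞ := fun j n q =>
    if lv j = n ∧ q ∈ Finset.Icc (fl (lv j) (c j) - 1) (fl (lv j) (c j) + 1) then
      ENNReal.ofReal ((1 / 2 : ℝ) ^ lv j) ^ k else 0
  let w : ℕ → (Fin d → ℤ) → ℝ≥0∞ := fun n q => η⁻¹ * ∑' j, F j n q
  have hvol : ∀ z, volume (fibre K z) ≤ ∑' n, ∑' j, F j n (fl n z) := by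
    intro z
    calc volume (fibre K z) ≤ volume (⋃ j, fibre (t j) z) := by
          refine measure_mono fun x hx => ?_
          have := ht1 hx
          rw [mem_iUnion] at this
          obtain ⟨j, hj⟩ := this
          exact mem_iUnion.2 ⟨j, hj⟩
      _ ≤ ∑' j, volume (fibre (t j) z) := measure_iUnion_le _
      _ ≤ ∑' j, ∑' n, F j n (fl n z) := by
          refine ENNReal.tsum_le_tsum fun j => ?_
          rcases (fibre (t j) z).eq_empty_or_nonempty with h | ⟨x0, hx0⟩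
          · rw [h]; simp
          · have h1 : volume (fibre (t j) z) ≤ ENNReal.ofReal ((1 / 2 : ℝ) ^ lv j) ^ k := by
              have h2 := Real.volume_pi_le_diam_pow (fibre (t j) z)
              rw [Fintype.card_fin] at h2
              refine h2.trans ?_
              gcongr
              refine Metric.ediam_le fun x hx y hy => ?_
              have h3 : edist (x, z) (y, z) ≤ ENNReal.ofReal ((1 / 2 : ℝ) ^ lv j) :=
                (Metric.edist_le_ediam_of_mem (show (x, z) ∈ t j from hx) (show (y, z) ∈ t j from hy)).trans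
                  ((hδD j).trans (ENNReal.ofReal_le_ofReal (hlv1 j)))
              rw [Prod.edist_eq] at h3
              exact (le_max_left _ _).trans h3
            refine h1.trans ?_
            refine le_trans ?_ (ENNReal.le_tsum (lv j))
            simp only [F]
            rw [if_pos]
            exact ⟨trivial, fl_near (hc j x0 z hx0)⟩
      _ = ∑' n, ∑' j, F j n (fl n z) := ENNReal.tsum_comm
  obtain ⟨S, hS1, hS2, hS3⟩ := exists_cover w {z | η ≤ volume (fibre K z)} (fun z hz => by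
      simp only [w]
      rw [ENNReal.tsum_mul_left]
      calc (1 : ℝ≥0∞) = η⁻¹ * η := (ENNReal.inv_mul_cancel hη hηt).symm
        _ ≤ _ := by gcongr; exact le_trans hz (hvol z))
    (fun n => ENNReal.ofReal (d * (1 / 2 : ℝ) ^ n) ^ s')
  refine ⟨S, ?_, hS2, hS3.trans ?_⟩
  · intro i hi
    have h1 := hS1 i hi
    simp only [w] at h1
    have h2 : ∑' j, F j i.1 i.2 ≠ 0 := fun h => h1 (by rw [h, mul_zero])
    obtain ⟨j, hj⟩ : ∃ j, F j i.1 i.2 ≠ 0 := by
      by_contra hcon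
      push Not at hcon
      exact h2 (ENNReal.tsum_eq_zero.2 hcon)
    have h3 : lv j = i.1 := by
      by_contra h3
      exact hj (if_neg fun h => h3 h.1)
    rw [← h3]
    by_contra hcon
    push Not at hcon
    have h4 : (1 / 2 : ℝ) ^ N < (1 / 2 : ℝ) ^ lv j :=
      pow_lt_pow_right_of_lt_one₀ (by norm_num) (by norm_num) hcon
    have h5 := hlv2 j
    have h6 := hδr j
    rw [hr, pow_succ] at h6
    linarith
  · calc ∑' i : ℕ × (Fin d → ℤ), w i.1 i.2 * ENNReal.ofReal (d * (1 / 2 : ℝ) ^ i.1) ^ s'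
        = η⁻¹ * ∑' j, ∑' i : ℕ × (Fin d → ℤ), F j i.1 i.2 * ENNReal.ofReal (d * (1 / 2 : ℝ) ^ i.1) ^ s' := by
          simp only [w]
          rw [ENNReal.tsum_comm, ← ENNReal.tsum_mul_left]
          refine tsum_congr fun i => ?_
          rw [ENNReal.tsum_mul_right, mul_assoc]
      _ ≤ η⁻¹ * ∑' j, (3 : ℝ≥0∞) ^ d * (ENNReal.ofReal d ^ s' * ENNReal.ofReal ((1 / 2 : ℝ) ^ lv j) ^ s) := by
          gcongr with j
          have h1 : ∀ i : ℕ × (Fin d → ℤ), F j i.1 i.2 * ENNReal.ofReal (d * (1 / 2 : ℝ) ^ i.1) ^ s' =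
              if i ∈ ({lv j} ×ˢ Finset.Icc (fl (lv j) (c j) - 1) (fl (lv j) (c j) + 1) :
                Finset (ℕ × (Fin d → ℤ))) then
                ENNReal.ofReal d ^ s' * ENNReal.ofReal ((1 / 2 : ℝ) ^ lv j) ^ s else 0 := by
            intro i
            simp only [F]
            by_cases hi : lv j = i.1 ∧ i.2 ∈ Finset.Icc (fl (lv j) (c j) - 1) (fl (lv j) (c j) + 1)
            · rw [if_pos hi, if_pos (by
                rw [Finset.mem_product, Finset.mem_singleton]; exact ⟨hi.1.symm, hi.2⟩)]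
              rw [← hi.1, ENNReal.ofReal_mul (by positivity), ENNReal.mul_rpow_of_nonneg _ _ hs'.le,
                hs, ENNReal.rpow_add_of_nonneg _ _ (Nat.cast_nonneg k) hs'.le, ENNReal.rpow_natCast]
              ring
            · rw [if_neg hi, if_neg (fun h => hi (by
                rw [Finset.mem_product, Finset.mem_singleton] at h; exact ⟨h.1.symm, h.2⟩)), zero_mul]
          rw [tsum_congr h1, tsum_eq_sum (s := ({lv j} ×ˢ Finset.Icc (fl (lv j) (c j) - 1)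
            (fl (lv j) (c j) + 1) : Finset (ℕ × (Fin d → ℤ)))) (fun i hi => if_neg hi)]
          rw [Finset.sum_congr rfl (fun i hi => if_pos hi), Finset.sum_const, Finset.card_product,
            Finset.card_singleton, one_mul, card_box, nsmul_eq_mul]
          push_cast
          exact le_rfl
      _ = η⁻¹ * ((3 : ℝ≥0∞) ^ d * (ENNReal.ofReal d ^ s' *
            ∑' j, ENNReal.ofReal ((1 / 2 : ℝ) ^ lv j) ^ s)) := by
          rw [ENNReal.tsum_mul_left, ENNReal.tsum_mul_left]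
      _ ≤ _ := by gcongr

/-- **Many big fibres**, upper bound for the dimension of the set of base points. -/
theorem dim_base_le {s' : ℝ} (hs' : 0 < s') {K : Set ((Fin k → ℝ) × EuclideanSpace ℝ (Fin d))}
    (hK : dimH K < ENNReal.ofReal (k + s')) :
    dimH {z | volume (fibre K z) ≠ 0} ≤ ENNReal.ofReal s' := by
  have hK0 : (μH[(k : ℝ) + s'] : Measure ((Fin k → ℝ) × EuclideanSpace ℝ (Fin d))) K = 0 := by
    have := hausdorffMeasure_of_dimH_lt (s := K) (d := Real.toNNReal (k + s')) hK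
    rwa [Real.coe_toNNReal _ (by positivity)] at this
  have hU : {z | volume (fibre K z) ≠ 0} =
      ⋃ j : ℕ, {z | ((j : ℝ≥0∞) + 1)⁻¹ ≤ volume (fibre K z)} := by
    ext z
    simp only [mem_ofPred_eq, mem_iUnion]
    constructor
    · intro h
      obtain ⟨j, hj⟩ := ENNReal.exists_inv_nat_lt h
      refine ⟨j, le_trans ?_ hj.le⟩
      exact ENNReal.inv_le_inv.2 le_self_add
    · rintro ⟨j, hj⟩ h
      rw [h] at hj
      simp at hj
  rw [hU, dimH_iUnion]
  refine iSup_le fun j => ?_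
  refine dimH_le_of_hausdorffMeasure_ne_top (d := Real.toNNReal s') ?_
  rw [Real.coe_toNNReal _ hs'.le]
  set η : ℝ≥0∞ := ((j : ℝ≥0∞) + 1)⁻¹ with hη
  have hη0 : η ≠ 0 := by simp [hη]
  have hηt : η ≠ ⊤ := by simp [hη]
  choose S hS1 hS2 hS3 using fun N => one_scale hs' hK0 hη0 hηt N
  set C : ℝ≥0∞ := η⁻¹ * ((3 : ℝ≥0∞) ^ d * (ENNReal.ofReal d ^ s' * (2 ^ ((k : ℝ) + s') * 3))) with hC
  have hCt : C ≠ ⊤ := by
    refine ENNReal.mul_ne_top (ENNReal.inv_ne_top.2 hη0) (ENNReal.mul_ne_top (by simp)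
      (ENNReal.mul_ne_top (ENNReal.rpow_ne_top_of_nonneg hs'.le ENNReal.ofReal_ne_top)
      (ENNReal.mul_ne_top (ENNReal.rpow_ne_top_of_nonneg (by positivity) (by simp)) (by simp))))
  refine ne_top_of_le_ne_top hCt ?_
  classical
  have hr : Tendsto (fun n : ℕ => ENNReal.ofReal (d * (1 / 2 : ℝ) ^ n)) atTop (𝓝 0) := by
    have h2 : Tendsto (fun n : ℕ => (d : ℝ) * (1 / 2 : ℝ) ^ n) atTop (𝓝 (d * 0)) :=
      (tendsto_pow_atTop_nhds_zero_of_lt_one (by norm_num) (by norm_num)).const_mul _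
    rw [mul_zero] at h2
    have := ENNReal.tendsto_ofReal h2
    rwa [ENNReal.ofReal_zero] at this
  have h3 := Measure.hausdorffMeasure_le_liminf_tsum (s') {z | η ≤ volume (fibre K z)}
    (l := atTop) (fun n : ℕ => ENNReal.ofReal (d * (1 / 2 : ℝ) ^ n)) hr
    (fun (N : ℕ) (i : ℕ × (Fin d → ℤ)) => if i ∈ S N then cube i.1 i.2 else ∅)
    (Eventually.of_forall fun N i => by
      by_cases hi : i ∈ S N
      · simp only [if_pos hi]
        refine (diam_cube _ _).trans (ENNReal.ofReal_le_ofReal ?_)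
        exact mul_le_mul_of_nonneg_left (pow_le_pow_of_le_one (by norm_num) (by norm_num)
          (hS1 N i hi)) (Nat.cast_nonneg d)
      · simp only [if_neg hi]
        simp)
    (Eventually.of_forall fun N z hz => by
      obtain ⟨i, hi, hz2⟩ := mem_iUnion₂.1 (hS2 N hz)
      exact mem_iUnion.2 ⟨i, by rw [if_pos hi]; exact hz2⟩)
  refine h3.trans ?_
  refine (liminf_le_of_frequently_le' (Frequently.of_forall fun N => ?_))
  refine le_trans (ENNReal.tsum_le_tsum fun i => ?_) (hS3 N)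
  by_cases hi : i ∈ S N
  · rw [if_pos hi, Set.indicator_of_mem hi]
    exact ENNReal.rpow_le_rpow (diam_cube _ _) hs'.le
  · rw [if_neg hi, Set.indicator_of_notMem hi]
    simp [ENNReal.zero_rpow_of_pos hs']

end Pool.Agent.Q321.Kk
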